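import Pool.Agent.H821R3.ES.K8Com

/-!
# Angle sums: the generic case (task K8a)
-/

set_option autoImplicit false
set_option maxHeartbeats 4000000

open MeasureTheory Finset
open scoped Classical

namespace Pool.Agent.H712R4.ES

open Pool.Agent.H242R3.ES Pool.Agent.H821R3.ES

theorem Bsum {κ : Type} [Fintype κ] (a : κ → ℝ) (N : κ → LV 3) (y : LV 3) :
    B (∑ F, a F • N F) y = ∑ F, a F * B (N F) y := by
  have h : B (∑ F, a F • N F) y = (Bl 3 y) (∑ F, a F • N F) := by
    rw [Bl_apply, B_comm]
  rw [h, map_sum]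
  refine Finset.sum_congr rfl fun F _ => ?_
  rw [map_smul, Bl_apply, smul_eq_mul, B_comm]

theorem arccos_arctan (a b : ℝ) (ha : 0 < a) (hb : 0 < b) :
    Real.arccos ((b ^ 2 - a ^ 2) / (b ^ 2 + a ^ 2)) = 2 * Real.arctan (a / b) := by
  have h0 : 0 < a / b := div_pos ha hb
  have h1 : 0 ≤ Real.arctan (a / b) := (Real.arctan_pos.2 h0).le
  have h2 : Real.arctan (a / b) < Real.pi / 2 := Real.arctan_lt_pi_div_two _
  have h3 : Real.cos (2 * Real.arctan (a / b)) = (b ^ 2 - a ^ 2) / (b ^ 2 + a ^ 2) := by
    rw [Real.cos_two_mul, Real.cos_sq_arctan]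
    field_simp
    ring
  rw [← h3, Real.arccos_cos (by linarith) (by linarith)]

theorem t : TaskK8a := by
  intro hTL hPhi hK7 ι κ ε _ _ _ V N X hD v o hvo hFo
  -- numbers
  obtain ⟨a, ha⟩ : ∃ a, a = - B (V v) (X o) := ⟨_, rfl⟩
  have ha0 : 0 < a := by
    rw [ha]
    have h1 := hD.vx v o
    rcases h1.lt_or_eq with h | h
    · linarith
    · exact absurd h hvo
  have hvo' : B (V v) (X o) = -a := by rw [ha]; ring
  let b : κ → ℝ := fun F => - B (N F) (X o)
  have hb0 : ∀ F, B (V v) (N F) = 0 → 0 < b F := by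
    intro F hF
    have h1 := hD.nx F o
    have h2 := hFo F hF
    show 0 < - B (N F) (X o)
    rcases h1.lt_or_eq with h | h
    · linarith
    · exact absurd h h2
  have hbF : ∀ F, B (N F) (X o) = - b F := fun F => by show _ = - - _; ring
  let g : ε → ℝ := fun e => - B (X e) (X o)
  have hgE : ∀ e, B (X e) (X o) = - g e := fun F => by show _ = - - _; ring
  have hg0 : ∀ e, B (V v) (X e) = 0 → 0 < g e := by
    intro e he
    have hne : e ≠ o := by
      rintro rfl; exact hvo he
    have h1 := hD.xx e o hne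
    show 0 < - B (X e) (X o)
    linarith
  let Q : LV 3 := X o + a • V v
  have hQr : ∀ x, B x Q = B x (X o) + a * B x (V v) := fun x => by
    show B x (X o + a • V v) = _
    rw [Bar, Bmr]
  have hvQ : B (V v) Q = 0 := by rw [hQr, hD.nV, hvo']; ring
  have hXQ : B (X o) Q = -a ^ 2 := by
    rw [hQr, hD.nX, B_comm, hvo']; ring
  have hQQ : B Q Q = -a ^ 2 := by
    rw [hQr, B_comm, hXQ, B_comm, hvQ]; ring
  obtain ⟨π, hπ, hsurj⟩ := proj (V v) Q a ha0 (hD.nV v) hvQ hQQ
  let κ' := {e : ε // B (V v) (X e) = 0}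
  let u : κ' → EuclideanSpace ℝ (Fin 2) := fun e => (a / g e) • π (X e)
  have hXv : ∀ e : κ', B (X e) (V v) = 0 := fun e => by rw [B_comm]; exact e.2
  have hXeQ : ∀ e : κ', B (X e) Q = - g e := fun e => by
    rw [hQr, hXv e, hgE]; ring
  have hgp : ∀ e : κ', 0 < g e := fun e => hg0 _ e.2
  -- inner products
  have huu : ∀ e f : κ', inner ℝ (u e) (u f) = 1 + a ^ 2 / (g e * g f) * B (X e) (X f) := by
    intro e f
    show inner ℝ ((a / g e) • π (X e)) ((a / g f) • π (X f)) = _
    rw [inner_smul_left, inner_smul_right, hπ, hXv e, hXv f, hXeQ e, hXeQ f]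
    have h1 := (hgp e).ne'
    have h2 := (hgp f).ne'
    simp only [conj_trivial]
    field_simp
    ring
  have hxu : ∀ (x : LV 3) (e : κ'), inner ℝ (π x) (u e) =
      a / g e * (B x (X e) - B x Q * g e / a ^ 2) := by
    intro x e
    show inner ℝ (π x) ((a / g e) • π (X e)) = _
    rw [inner_smul_right, hπ, hXv e, hXeQ e]
    ring
  have hunit : ∀ e : κ', inner ℝ (u e) (u e) = (1 : ℝ) := by
    intro e
    rw [huu, hD.nX]; ring
  -- pairs
  let pr : κ → Finset κ' := fun F => Finset.univ.filter (fun e : κ' => B (N F) (X e) = 0)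
  have hpr : ∀ F (e : κ'), e ∈ pr F ↔ B (N F) (X e) = 0 := fun F e => by
    simp [pr]
  have hpair : ∀ F, B (V v) (N F) = 0 → ∃ e f : κ', e ≠ f ∧ pr F = {e, f} ∧
      inner ℝ (u e) (u f) = (b F ^ 2 - a ^ 2) / (b F ^ 2 + a ^ 2) := by
    intro F hF
    obtain ⟨e, f, hef, hall⟩ := hD.fl v F hF
    have he := (hall e).2 (Or.inl rfl)
    have hf := (hall f).2 (Or.inr rfl)
    refine ⟨⟨e, he.1⟩, ⟨f, hf.1⟩, fun h => hef (congrArg Subtype.val h), ?_, ?_⟩
    · ext k
      rw [hpr, Finset.mem_insert, Finset.mem_singleton]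
      constructor
      · intro hk
        rcases (hall k).1 ⟨k.2, hk⟩ with h | h
        · exact Or.inl (Subtype.ext h)
        · exact Or.inr (Subtype.ext h)
      · rintro (h | h)
        · rw [h]; exact he.2
        · rw [h]; exact hf.2
    · rw [huu]
      have h7 := hK7 (V v) (N F) (X e) (X f) (X o) (hD.nV v) (hD.nN F) hF he.1 hf.1 he.2 hf.2
        (hD.nX e) (hD.nX f) (hD.xx e f hef).ne
      rw [hD.nX, hvo', hbF, hgE, hgE] at h7
      have h1 := (hg0 e he.1).ne'
      have h2 := (hg0 f hf.1).ne'
      have h3 : b F ^ 2 + a ^ 2 ≠ 0 := by positivity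
      have h4 : B (X e) (X f) = - (2 * g e * g f) / (b F ^ 2 + a ^ 2) := by
        rw [eq_div_iff h3]
        linear_combination -h7
      show 1 + a ^ 2 / (g e * g f) * B (X e) (X f) = _
      rw [h4]
      field_simp
      ring
  let S0 : Finset κ := Finset.univ.filter (fun F => B (V v) (N F) = 0)
  have hS0 : ∀ F, F ∈ S0 ↔ B (V v) (N F) = 0 := fun F => by simp [S0]
  have hinj : Set.InjOn pr S0 := by
    intro F hF G hG hFG
    by_contra hne
    have hF' := (hS0 F).1 hF
    have hG' := (hS0 G).1 hG
    obtain ⟨e, f, hef, hFe, _⟩ := hpair F hF'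
    have e1 : B (N F) (X e) = 0 := (hpr F e).1 (by rw [hFe]; simp)
    have f1 : B (N F) (X f) = 0 := (hpr F f).1 (by rw [hFe]; simp)
    have e2 : B (N G) (X e) = 0 := (hpr G e).1 (by rw [← hFG, hFe]; simp)
    have f2 : B (N G) (X f) = 0 := (hpr G f).1 (by rw [← hFG, hFe]; simp)
    have key : ∀ e : ε, B (N F) (X e) = 0 → B (N G) (X e) = 0 →
        ∃ c : ℝ, 0 < c ∧ N F + N G = c • X e := by
      intro e h1 h2
      obtain ⟨i, j, hij, hall, c, hc, hs⟩ := hD.sN e
      have h3 := (hall F).1 h1
      have h4 := (hall G).1 h2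
      refine ⟨c, hc, ?_⟩
      rcases h3 with rfl | rfl
      · rcases h4 with rfl | rfl
        · exact absurd rfl hne
        · exact hs
      · rcases h4 with rfl | rfl
        · rw [add_comm]; exact hs
        · exact absurd rfl hne
    obtain ⟨c, hc, h1⟩ := key e e1 e2
    obtain ⟨c', hc', h2⟩ := key f f1 f2
    have h3 : B (c • X e) (X f) = 0 := by
      rw [← h1, h2, Bml, hD.nX, mul_zero]
    rw [Bml] at h3
    have h4 := hD.xx e f (fun h => hef (Subtype.ext h))
    rcases mul_eq_zero.1 h3 with h5 | h5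
    · exact hc.ne' h5
    · exact h4.ne h5
  let θ : Finset κ' → ℝ := fun s => Real.arccos ((∑ i ∈ s, ∑ k ∈ s, inner ℝ (u i) (u k) - 2) / 2)
  have hθ : ∀ i k : κ', i ≠ k → θ {i, k} = Real.arccos (inner ℝ (u i) (u k)) := by
    intro i k hik
    show Real.arccos _ = _
    congr 1
    rw [Finset.sum_pair hik, Finset.sum_pair hik, Finset.sum_pair hik, hunit, hunit,
      real_inner_comm (u i) (u k)]
    ring
  have main : ∑ s ∈ S0.image pr, θ s = 2 * Real.pi := by
    refine TLsum hTL hPhi u (S0.image pr) hunit ?_ ?_ ?_ θ ?_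
    · -- condition 1
      intro n hn
      by_contra hcon
      push Not at hcon
      obtain ⟨x, hxv, hxQ, rfl⟩ := hsurj n
      have h1 : ∀ e, B (V v) (X e) = 0 → B x (X e) ≤ 0 := by
        intro e he
        have h2 := hcon ⟨e, he⟩
        rw [hxu, hxQ] at h2
        have h3 : 0 < a / g e := div_pos ha0 (hg0 e he)
        have h4 : a / g e * B x (X e) ≤ 0 := by
          have : a / g e * (B x (X e) - 0 * g e / a ^ 2) = a / g e * B x (X e) := by ring
          rw [← this]; exact h2
        by_contra h5
        push Not at h5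
        have := mul_pos h3 h5
        linarith
      obtain ⟨al, hal0, hal1, hal2⟩ := hD.rV v x hxv h1
      have h2 : B x (X o) = 0 := by
        have := hQr x
        rw [hxQ, hxv] at this
        linarith
      have h3 : ∑ F, al F * b F = 0 := by
        have h4 : B x (X o) = ∑ F, al F * B (N F) (X o) := by
          conv_lhs => rw [hal2]
          exact Bsum al N (X o)
        rw [h2] at h4
        have h5 : ∑ F, al F * b F = - ∑ F, al F * B (N F) (X o) := by
          rw [← Finset.sum_neg_distrib]
          refine Finset.sum_congr rfl fun F _ => ?_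
          rw [hbF]; ring
        rw [h5, ← h4]; ring
      have h4 : ∀ F ∈ Finset.univ, 0 ≤ al F * b F := by
        intro F _
        by_cases h : al F = 0
        · rw [h]; simp
        · exact mul_nonneg (hal0 F) (hb0 F (hal1 F h)).le
      have h5 : ∀ F, al F = 0 := by
        intro F
        by_contra h
        have h6 := (Finset.sum_eq_zero_iff_of_nonneg h4).1 h3 F (Finset.mem_univ _)
        rcases mul_eq_zero.1 h6 with h7 | h7
        · exact h h7
        · exact (hb0 F (hal1 F h)).ne' h7
      have h6 : x = 0 := by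
        rw [hal2]
        refine Finset.sum_eq_zero fun F _ => ?_
        rw [h5 F, zero_smul]
      exact hn (by rw [h6, map_zero])
    · -- condition 2
      intro s hs
      obtain ⟨F, hF, rfl⟩ := Finset.mem_image.1 hs
      have hF' := (hS0 F).1 hF
      have hbp := hb0 F hF'
      obtain ⟨e, f, hef, hpf, hin⟩ := hpair F hF'
      have hpos : 0 < b F ^ 2 + a ^ 2 := by positivity
      refine ⟨e, f, hef, ?_, ?_, ?_, π ((a / b F) • N F), ?_, ?_⟩
      · rw [hpf]
        ext k
        simp only [Finset.mem_insert, Finset.mem_singleton]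
      · rw [hin, lt_div_iff₀ hpos]
        nlinarith [pow_pos hbp 2]
      · rw [hin, div_lt_one hpos]
        nlinarith [pow_pos ha0 2]
      all_goals
        have hval : ∀ k : κ', inner ℝ (π ((a / b F) • N F)) (u k) =
            1 + a ^ 2 / (b F * g k) * B (N F) (X k) := by
          intro k
          rw [hxu, Bml, Bml, hQr, hbF, B_comm (N F) (V v), hF']
          have h1 := (hgp k).ne'
          have h2 := hbp.ne'
          field_simp
          ring
      · intro k
        rw [hval]
        have h1 : 0 < a ^ 2 / (b F * g k) := by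
          have := hgp k
          positivity
        have h2 := hD.nx F k
        nlinarith
      · intro k
        rw [hval, hpr]
        have h1 : 0 < a ^ 2 / (b F * g k) := by
          have := hgp k
          positivity
        constructor
        · intro h; rw [h]; ring
        · intro h
          have h2 : a ^ 2 / (b F * g k) * B (N F) (X k) = 0 := by linarith
          exact (mul_eq_zero.1 h2).resolve_left h1.ne'
    · -- condition 3
      intro n hn _
      obtain ⟨x, hxv, hxQ, rfl⟩ := hsurj n
      have hy : ∀ e : κ', B (Q + a • x) (X e) = - g e * (1 - inner ℝ (π x) (u e)) := by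
        intro e
        rw [hxu, hxQ, Bal, Bml, B_comm Q, hXeQ]
        have h1 := (hgp e).ne'
        field_simp
        ring
      have hyv : B (Q + a • x) (V v) = 0 := by
        rw [Bal, Bml, hxv, B_comm, hvQ]; ring
      obtain ⟨al, hal0, hal1, hal2⟩ := hD.rV v (Q + a • x) hyv (by
        intro e he
        have h1 := hy ⟨e, he⟩
        have h2 := hn ⟨e, he⟩
        have h3 := hg0 e he
        show B (Q + a • x) (X e) ≤ 0
        have h4 : B (Q + a • x) (X e) = - g e * (1 - inner ℝ (π x) (u ⟨e, he⟩)) := h1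
        rw [h4]
        nlinarith)
      have hex : ∃ F, al F ≠ 0 := by
        by_contra hcon
        push Not at hcon
        have h1 : Q + a • x = 0 := by
          rw [hal2]
          refine Finset.sum_eq_zero fun F _ => ?_
          rw [hcon F, zero_smul]
        have h2 : B (Q + a • x) Q = -a ^ 2 := by
          rw [Bal, Bml, hxQ, hQQ]; ring
        rw [h1] at h2
        have h3 : B (0 : LV 3) Q = 0 := by
          have := Bml (0:ℝ) (0 : LV 3) Q
          rw [zero_smul] at this
          rw [this]; ring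
        rw [h3] at h2
        have : 0 < a ^ 2 := by positivity
        linarith
      obtain ⟨F, hF⟩ := hex
      refine ⟨pr F, Finset.mem_image.2 ⟨F, (hS0 F).2 (hal1 F hF), rfl⟩, ?_⟩
      intro k hk
      rw [hpr]
      have h1 : B (Q + a • x) (X k) = 0 := by
        rw [hy k, hk]; ring
      have h2 : ∑ F, al F * (- B (N F) (X k)) = 0 := by
        have h3 : B (Q + a • x) (X k) = ∑ F, al F * B (N F) (X k) := by
          conv_lhs => rw [hal2]
          exact Bsum al N (X k)
        rw [h1] at h3
        have h5 : ∑ F, al F * (- B (N F) (X k)) = - ∑ F, al F * B (N F) (X k) := by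
          rw [← Finset.sum_neg_distrib]
          refine Finset.sum_congr rfl fun F _ => ?_
          ring
        rw [h5, ← h3]; ring
      have h4 : ∀ F ∈ Finset.univ, 0 ≤ al F * (- B (N F) (X k)) := by
        intro F _
        have := hD.nx F k
        exact mul_nonneg (hal0 F) (by linarith)
      have h6 := (Finset.sum_eq_zero_iff_of_nonneg h4).1 h2 F (Finset.mem_univ _)
      rcases mul_eq_zero.1 h6 with h7 | h7
      · exact absurd h7 hF
      · linarith
    · intro s _ i k hik hs
      rw [hs]
      have h := hθ i k hik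
      convert h
  rw [Finset.sum_image hinj] at main
  have hterm : ∀ F ∈ S0, θ (pr F) = 2 * Real.arctan (B (V v) (X o) / B (N F) (X o)) := by
    intro F hF
    have hF' := (hS0 F).1 hF
    obtain ⟨e, f, hef, hpf, hin⟩ := hpair F hF'
    rw [hpf, hθ e f hef, hin, arccos_arctan a (b F) ha0 (hb0 F hF'), hvo', hbF, neg_div_neg_eq]
  rw [Finset.sum_congr rfl hterm, ← Finset.mul_sum] at main
  have : ∑ F ∈ S0, Real.arctan (B (V v) (X o) / B (N F) (X o)) = Real.pi := by linarith
  exact this

end Pool.Agent.H712R4.ES
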